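import Mathlib

open MeasureTheory ProbabilityTheory Finset

open scoped ENNReal

namespace Pool.Agent.Results.MP_c9564b_pr.MoreIsFaster

variable {n : ℕ}

/-- The bijection `τ` is consistent with the first `t` observations `(S i, σ (S i))`. -/
def Consistent (σ τ : Fin n ≃ Fin n) (S : ℕ → Finset (Fin n)) (t : ℕ) : Prop :=
  ∀ i < t, (S i).image τ = (S i).image σ

/-- The matching `σ` is recovered after the samples `S 0, ..., S (t-1)`: every coupon was
sampled and `σ` is the only consistent bijection. -/
def Recovered (σ : Fin n ≃ Fin n) (S : ℕ → Finset (Fin n)) (t : ℕ) : Prop :=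
  (∀ c, ∃ i < t, c ∈ S i) ∧ ∀ τ : Fin n ≃ Fin n, Consistent σ τ S t → τ = σ

/-- The recovery time: the first `t` at which the matching is recovered (`∞` if there is none). -/
noncomputable def recTime (σ : Fin n ≃ Fin n) (S : ℕ → Finset (Fin n)) : ℝ≥0∞ :=
  ⨅ (t : ℕ) (_ : Recovered σ S t), (t : ℝ≥0∞)

/-- The expected recovery time when the samples are independent with common law `ν`. -/
noncomputable def expRec (σ : Fin n ≃ Fin n) (ν : Measure (Finset (Fin n))) : ℝ≥0∞ :=
  ∫⁻ S, recTime σ S ∂(Measure.infinitePi fun _ : ℕ => ν)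

/-- The law of a sample of size `k`: a uniformly random `k`-element subset of the coupons. -/
noncomputable def unif (n k : ℕ) : Measure (Finset (Fin n)) :=
  uniformOn {A | A.card = k}

/-- The law of a sample whose size is `k₁` with probability `p` and `k₂` with probability
`1 - p`. -/
noncomputable def mix (n k₁ k₂ : ℕ) (p : ℝ) : Measure (Finset (Fin n)) :=
  ENNReal.ofReal p • unif n k₁ + ENNReal.ofReal (1 - p) • unif n k₂

/-- all coupons have distinct nonzero membership vectors -/
def Sep {ι : Type} (S : ι → Finset (Fin n)) : Prop :=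
  (∀ c, ∃ i, c ∈ S i) ∧ ∀ c d, c ≠ d → ∃ i, ¬ (c ∈ S i ↔ d ∈ S i)

lemma recovered_iff (σ : Fin n ≃ Fin n) (S : ℕ → Finset (Fin n)) (t : ℕ) :
    Recovered σ S t ↔ Sep (fun i : Fin t => S i) := by
  constructor
  · rintro ⟨h1, h2⟩
    refine ⟨fun c => ?_, fun c d hcd => ?_⟩
    · obtain ⟨i, hi, hc⟩ := h1 c
      exact ⟨⟨i, hi⟩, hc⟩
    · by_contra hne
      push Not at hne
      have key : (Equiv.swap c d).trans σ = σ := by
        apply h2
        intro i hi
        have hi' := hne ⟨i, hi⟩
        simp only at hi'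
        ext y
        simp only [mem_image, Equiv.trans_apply]
        constructor
        · rintro ⟨x, hx, rfl⟩
          refine ⟨Equiv.swap c d x, ?_, rfl⟩
          by_cases hxc : x = c
          · subst hxc; rw [Equiv.swap_apply_left]; exact hi'.1 hx
          · by_cases hxd : x = d
            · subst hxd; rw [Equiv.swap_apply_right]; exact hi'.2 hx
            · rw [Equiv.swap_apply_of_ne_of_ne hxc hxd]; exact hx
        · rintro ⟨x, hx, rfl⟩
          refine ⟨Equiv.swap c d x, ?_, by simp⟩
          by_cases hxc : x = c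
          · subst hxc; rw [Equiv.swap_apply_left]; exact hi'.1 hx
          · by_cases hxd : x = d
            · subst hxd; rw [Equiv.swap_apply_right]; exact hi'.2 hx
            · rw [Equiv.swap_apply_of_ne_of_ne hxc hxd]; exact hx
      have h3 := congrArg (fun e : Fin n ≃ Fin n => e c) key
      simp only [Equiv.trans_apply, Equiv.swap_apply_left, EmbeddingLike.apply_eq_iff_eq] at h3
      exact hcd h3.symm
  · rintro ⟨h1, h2⟩
    refine ⟨fun c => ?_, fun τ hτ => ?_⟩
    · obtain ⟨i, hc⟩ := h1 c
      exact ⟨i, i.2, hc⟩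
    · ext1 c
      by_contra hne
      have hcd : c ≠ σ.symm (τ c) := by
        intro h
        apply hne
        have := congrArg σ h
        simpa using this.symm
      obtain ⟨i, hi⟩ := h2 _ _ hcd
      apply hi
      have h4 := hτ i i.2
      have h5 : c ∈ S i ↔ τ c ∈ (S i).image τ := by simp
      rw [h5, h4]
      constructor
      · intro h
        obtain ⟨x, hx, hxe⟩ := mem_image.1 h
        rw [← hxe]
        simpa using hx
      · intro h
        exact mem_image.2 ⟨_, h, by simp⟩

/-- The counting step: double counting for an involution. -/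
lemma count_step (π : Fin n → Fin n) (hπ : ∀ c, π (π c) = c) (U : Finset (Fin n))
    (hU : ∀ u ∈ U, π u = u) (k : ℕ) (hk : 2 * k + 1 ≤ n) :
    #{A : Finset (Fin n) | A.card = k ∧ U ⊆ A ∧ ∀ c, π c ≠ c → (c ∈ A ↔ π c ∉ A)} * (n - k) ≤
    #{A : Finset (Fin n) | A.card = k + 1 ∧ U ⊆ A ∧ ∀ c, π c ≠ c → (c ∈ A ↔ π c ∉ A)}
      * (k + 1) := by
  classical
  set G : ℕ → Finset (Finset (Fin n)) := fun k =>
    {A : Finset (Fin n) | A.card = k ∧ U ⊆ A ∧ ∀ c, π c ≠ c → (c ∈ A ↔ π c ∉ A)} with hG
  change #(G k) * (n - k) ≤ #(G (k + 1)) * (k + 1)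
  set P : Finset (Fin n) := {c | π c ≠ c} with hP
  set F : Finset (Fin n) := {c | π c = c ∧ c ∉ U} with hF
  have hPm : ∀ A : Finset (Fin n), (∀ c, π c ≠ c → (c ∈ A ↔ π c ∉ A)) → #P = 2 * #(P ∩ A) := by
    intro A hA
    have h1 : #(P \ A) = #(P ∩ A) := by
      apply Finset.card_bij' (fun c _ => π c) (fun c _ => π c)
      · intro c hc
        simp only [hP, mem_sdiff, mem_filter, mem_univ, true_and, mem_inter] at hc ⊢
        refine ⟨?_, ?_⟩
        · rw [hπ]; exact fun h => hc.1 h.symm
        · by_contra h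
          exact hc.2 ((hA c hc.1).2 h)
      · intro c hc
        simp only [hP, mem_sdiff, mem_filter, mem_univ, true_and, mem_inter] at hc ⊢
        refine ⟨?_, ?_⟩
        · rw [hπ]; exact fun h => hc.1 h.symm
        · exact (hA c hc.1).1 hc.2
      · intro c _; exact hπ c
      · intro c _; exact hπ c
    have h2 := Finset.card_sdiff_add_card_inter P A
    omega
  have hcardA : ∀ j, ∀ A ∈ G j, #(P ∩ A) + #U + #(F ∩ A) = j := by
    intro j A hA
    simp only [hG, mem_filter, mem_univ, true_and] at hA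
    obtain ⟨hc, hUA, hA⟩ := hA
    have h1 : A = (P ∩ A) ∪ U ∪ (F ∩ A) := by
      ext c
      simp only [hP, hF, mem_union, mem_inter, mem_filter, mem_univ, true_and]
      constructor
      · intro h
        by_cases h1 : π c = c
        · by_cases h2 : c ∈ U
          · exact Or.inl (Or.inr h2)
          · exact Or.inr ⟨⟨h1, h2⟩, h⟩
        · exact Or.inl (Or.inl ⟨h1, h⟩)
      · rintro ((h | h) | h)
        · exact h.2
        · exact hUA h
        · exact h.2
    have hd1 : Disjoint (P ∩ A) U := by
      rw [Finset.disjoint_left]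
      intro c hc hcU
      simp only [hP, mem_inter, mem_filter, mem_univ, true_and] at hc
      exact hc.1 (hU c hcU)
    have hd2 : Disjoint ((P ∩ A) ∪ U) (F ∩ A) := by
      rw [Finset.disjoint_left]
      intro c hc hcF
      simp only [hP, hF, mem_union, mem_inter, mem_filter, mem_univ, true_and] at hc hcF
      rcases hc with hc | hc
      · exact hc.1 hcF.1.1
      · exact hcF.1.2 hc
    have h2 := congrArg Finset.card h1
    rw [Finset.card_union_of_disjoint hd2, Finset.card_union_of_disjoint hd1, hc] at h2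
    omega
  have hcardn : #P + #U + #F = n := by
    have h1 : (univ : Finset (Fin n)) = P ∪ U ∪ F := by
      ext c
      simp only [hP, hF, mem_union, mem_filter, mem_univ, true_and, true_iff]
      tauto
    have hd1 : Disjoint P U := by
      rw [Finset.disjoint_left]
      intro c hc hcU
      simp only [hP, mem_filter, mem_univ, true_and] at hc
      exact hc (hU c hcU)
    have hd2 : Disjoint (P ∪ U) F := by
      rw [Finset.disjoint_left]
      intro c hc hcF
      simp only [hP, hF, mem_union, mem_filter, mem_univ, true_and] at hc hcF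
      rcases hc with hc | hc
      · exact hc hcF.1
      · exact hcF.2 hc
    have h2 := congrArg Finset.card h1
    rw [Finset.card_union_of_disjoint hd2, Finset.card_union_of_disjoint hd1] at h2
    simp only [Finset.card_univ, Fintype.card_fin] at h2
    omega
  rcases Finset.eq_empty_or_nonempty (G k) with h0 | ⟨A₀, hA₀⟩
  · rw [h0]; simp
  obtain ⟨m, hm⟩ : ∃ m, #P = 2 * m := by
    simp only [hG, mem_filter, mem_univ, true_and] at hA₀
    exact ⟨_, hPm A₀ hA₀.2.2⟩
  have hPA : ∀ j, ∀ A ∈ G j, #(P ∩ A) = m := by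
    intro j A hA
    simp only [hG, mem_filter, mem_univ, true_and] at hA
    have := hPm A hA.2.2
    omega
  have hmk : m + #U ≤ k := by
    have h1 := hcardA k A₀ hA₀
    have h2 := hPA k A₀ hA₀
    omega
  -- double counting
  have hdc : ∑ A ∈ G k, #(F \ A) = ∑ B ∈ G (k + 1), #(F ∩ B) := by
    rw [← Finset.card_sigma, ← Finset.card_sigma]
    apply Finset.card_bij' (fun (q : (_ : Finset (Fin n)) × Fin n) _ =>
        (⟨insert q.2 q.1, q.2⟩ : (_ : Finset (Fin n)) × Fin n))
      (fun (q : (_ : Finset (Fin n)) × Fin n) _ =>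
        (⟨q.1.erase q.2, q.2⟩ : (_ : Finset (Fin n)) × Fin n))
    · rintro ⟨A, x⟩ hq
      simp only [hG, hF, mem_sigma, mem_filter, mem_univ, true_and, mem_sdiff, mem_inter] at hq ⊢
      obtain ⟨⟨hc, hUA, hA⟩, ⟨hx1, hx2⟩, hx3⟩ := hq
      refine ⟨⟨?_, ?_, ?_⟩, ⟨hx1, hx2⟩, by simp⟩
      · rw [Finset.card_insert_of_notMem hx3, hc]
      · exact hUA.trans (Finset.subset_insert _ _)
      · intro c hc
        have hcx : c ≠ x := fun h => hc (by rw [h]; exact hx1)
        have hcx' : π c ≠ x := fun h => hc (by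
          have h5 := hπ c
          rw [h] at h5
          rw [h, ← h5, hx1])
        simp only [mem_insert, hcx, false_or, hcx']
        exact hA c hc
    · rintro ⟨B, x⟩ hq
      simp only [hG, hF, mem_sigma, mem_filter, mem_univ, true_and, mem_sdiff, mem_inter] at hq ⊢
      obtain ⟨⟨hc, hUA, hA⟩, ⟨hx1, hx2⟩, hx3⟩ := hq
      refine ⟨⟨?_, ?_, ?_⟩, ⟨hx1, hx2⟩, by simp⟩
      · rw [Finset.card_erase_of_mem hx3, hc]; simp
      · intro u hu
        rw [mem_erase]
        exact ⟨fun h => hx2 (h ▸ hu), hUA hu⟩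
      · intro c hc
        have hcx : c ≠ x := fun h => hc (by rw [h]; exact hx1)
        have hcx' : π c ≠ x := fun h => hc (by
          have h5 := hπ c
          rw [h] at h5
          rw [h, ← h5, hx1])
        simp only [mem_erase, ne_eq, hcx, not_false_eq_true, true_and, hcx']
        exact hA c hc
    · rintro ⟨A, x⟩ hq
      simp only [hG, hF, mem_sigma, mem_filter, mem_univ, true_and, mem_sdiff] at hq
      simp [hq.2.2]
    · rintro ⟨B, x⟩ hq
      simp only [hG, hF, mem_sigma, mem_filter, mem_univ, true_and, mem_inter] at hq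
      simp [Finset.insert_erase hq.2.2]
  have hL : ∑ A ∈ G k, #(F \ A) = #(G k) * (n - m - k) := by
    rw [Finset.sum_const_nat (m := n - m - k)]
    intro A hA
    have h1 := hcardA k A hA
    have h2 := hPA k A hA
    have h3 := Finset.card_sdiff_add_card_inter F A
    omega
  have hR : ∑ B ∈ G (k + 1), #(F ∩ B) = #(G (k + 1)) * (k + 1 - m - #U) := by
    rw [Finset.sum_const_nat (m := k + 1 - m - #U)]
    intro B hB
    have h1 := hcardA (k + 1) B hB
    have h2 := hPA (k + 1) B hB
    omega
  rw [hL, hR] at hdc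
  obtain ⟨a, ha⟩ : ∃ a, n = m + k + (a + 1) := ⟨n - (m + k) - 1, by omega⟩
  obtain ⟨b, hb⟩ : ∃ b, k = m + #U + b := ⟨k - (m + #U), by omega⟩
  have e1 : n - m - k = a + 1 := by omega
  have e2 : n - k = m + (a + 1) := by omega
  have e3 : k + 1 - m - #U = b + 1 := by omega
  rw [e1, e3] at hdc
  rw [e2]
  have hkey : (b + 1) * (m + (a + 1)) ≤ (k + 1) * (a + 1) := by
    have hab : k + 1 ≤ m + (a + 1) := by omega
    have e4 : (k + 1) * (a + 1) = (b + 1) * (a + 1) + (m + #U) * (a + 1) := by
      rw [hb]; ring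
    rw [e4]
    have e5 : (b + 1) * m ≤ m * (a + 1) := by
      have : b + 1 ≤ a + 1 := by omega
      rw [mul_comm]
      exact Nat.mul_le_mul_left _ this
    nlinarith
  have h6 : #(G k) * (m + (a + 1)) * (a + 1) ≤ #(G (k + 1)) * (k + 1) * (a + 1) := by
    calc #(G k) * (m + (a + 1)) * (a + 1) = (#(G k) * (a + 1)) * (m + (a + 1)) := by ring
      _ = #(G (k + 1)) * ((b + 1) * (m + (a + 1))) := by rw [hdc]; ring
      _ ≤ #(G (k + 1)) * ((k + 1) * (a + 1)) := Nat.mul_le_mul_left _ hkey
      _ = _ := by ring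
  exact Nat.le_of_mul_le_mul_right h6 (Nat.succ_pos a)

/-- Same for an equivalence relation `r` (not separated by the other samples) and an `r`-closed
set `U` (not covered by the other samples). -/
lemma count_step' (r : Fin n → Fin n → Prop) (hr : Equivalence r) (U : Finset (Fin n))
    (hU : ∀ c d, c ∈ U → r c d → d ∈ U) (Q : Finset (Fin n) → Prop) [DecidablePred Q]
    (hQ : ∀ A, Q A ↔ (U ⊆ A ∧ ∀ c d, c ≠ d → r c d → ¬ (c ∈ A ↔ d ∈ A)))
    (k : ℕ) (hk : 2 * k + 1 ≤ n) :
    #{A : Finset (Fin n) | A.card = k ∧ Q A} * (n - k) ≤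
    #{A : Finset (Fin n) | A.card = k + 1 ∧ Q A} * (k + 1) := by
  classical
  rcases Finset.eq_empty_or_nonempty {A : Finset (Fin n) | A.card = k ∧ Q A} with h0 | ⟨A₀, hA₀⟩
  · rw [h0]; simp
  simp only [mem_filter, mem_univ, true_and] at hA₀
  have hA := (hQ A₀).1 hA₀.2
  have huniq : ∀ c d e, c ≠ d → c ≠ e → r c d → r c e → d = e := by
    intro c d e hcd hce h1 h2
    by_contra hde
    have h3 := hA.2 c d hcd h1
    have h4 := hA.2 c e hce h2
    have h5 := hA.2 d e hde (hr.trans (hr.symm h1) h2)
    tauto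
  set π : Fin n → Fin n := fun c => if h : ∃ d, c ≠ d ∧ r c d then h.choose else c with hπdef
  have hπ1 : ∀ c d, c ≠ d → r c d → π c = d := by
    intro c d hcd h
    have hex : ∃ d, c ≠ d ∧ r c d := ⟨d, hcd, h⟩
    have h1 : π c = hex.choose := by simp only [hπdef]; rw [dif_pos hex]
    rw [h1]
    exact huniq c _ d hex.choose_spec.1 hcd hex.choose_spec.2 h
  have hπ2 : ∀ c, π c ≠ c → r c (π c) := by
    intro c hc
    by_cases hex : ∃ d, c ≠ d ∧ r c d
    · have h1 : π c = hex.choose := by simp only [hπdef]; rw [dif_pos hex]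
      rw [h1]; exact hex.choose_spec.2
    · exfalso
      apply hc
      simp only [hπdef]; rw [dif_neg hex]
  have hinv : ∀ c, π (π c) = c := by
    intro c
    by_cases hc : π c = c
    · rw [hc, hc]
    · exact hπ1 (π c) c hc (hr.symm (hπ2 c hc))
  have hUfix : ∀ u ∈ U, π u = u := by
    intro u hu
    by_contra hne
    have h1 := hπ2 u hne
    have h2 := hU u _ hu h1
    have h3 := hA.2 u (π u) (fun h => hne h.symm) h1
    exact h3 ⟨fun _ => hA.1 h2, fun _ => hA.1 hu⟩
  have hQ' : ∀ A, Q A ↔ (U ⊆ A ∧ ∀ c, π c ≠ c → (c ∈ A ↔ π c ∉ A)) := by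
    intro A
    rw [hQ]
    constructor
    · rintro ⟨h1, h2⟩
      refine ⟨h1, fun c hc => ?_⟩
      have := h2 c (π c) (fun h => hc h.symm) (hπ2 c hc)
      tauto
    · rintro ⟨h1, h2⟩
      refine ⟨h1, fun c d hcd h => ?_⟩
      have h3 := hπ1 c d hcd h
      have h4 := h2 c (by rw [h3]; exact fun h => hcd h.symm)
      rw [h3] at h4
      tauto
  have key := count_step π hinv U hUfix k hk
  simp only [hQ']
  exact key

/-- proportion of the `k`-subsets satisfying `Q` -/
noncomputable def prop (Q : Finset (Fin n) → Prop) [DecidablePred Q] (k : ℕ) : ℝ :=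
  (#{A : Finset (Fin n) | A.card = k ∧ Q A} : ℝ) / (n.choose k : ℝ)

lemma prop_step (r : Fin n → Fin n → Prop) (hr : Equivalence r) (U : Finset (Fin n))
    (hU : ∀ c d, c ∈ U → r c d → d ∈ U) (Q : Finset (Fin n) → Prop) [DecidablePred Q]
    (hQ : ∀ A, Q A ↔ (U ⊆ A ∧ ∀ c d, c ≠ d → r c d → ¬ (c ∈ A ↔ d ∈ A)))
    (k : ℕ) (hk : 2 * k + 1 ≤ n) : prop Q k ≤ prop Q (k + 1) := by
  have h1 := count_step' r hr U hU Q hQ k hk
  have h2 := Nat.choose_succ_right_eq n k
  unfold prop
  have hc1 : 0 < n.choose k := Nat.choose_pos (by omega)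
  have hc2 : 0 < n.choose (k + 1) := Nat.choose_pos (by omega)
  rw [div_le_div_iff₀ (by exact_mod_cast hc1) (by exact_mod_cast hc2)]
  have h3 : #{A : Finset (Fin n) | A.card = k ∧ Q A} * n.choose (k + 1) * (k + 1) ≤
      #{A : Finset (Fin n) | A.card = k + 1 ∧ Q A} * n.choose k * (k + 1) := by
    calc _ = #{A : Finset (Fin n) | A.card = k ∧ Q A} * (n.choose (k + 1) * (k + 1)) := by ring
      _ = (#{A : Finset (Fin n) | A.card = k ∧ Q A} * (n - k)) * n.choose k := by rw [h2]; ring
      _ ≤ (#{A : Finset (Fin n) | A.card = k + 1 ∧ Q A} * (k + 1)) * n.choose k :=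
        Nat.mul_le_mul_right _ h1
      _ = _ := by ring
  have h4 := Nat.le_of_mul_le_mul_right h3 (Nat.succ_pos k)
  exact_mod_cast h4

lemma prop_mono (r : Fin n → Fin n → Prop) (hr : Equivalence r) (U : Finset (Fin n))
    (hU : ∀ c d, c ∈ U → r c d → d ∈ U) (Q : Finset (Fin n) → Prop) [DecidablePred Q]
    (hQ : ∀ A, Q A ↔ (U ⊆ A ∧ ∀ c d, c ≠ d → r c d → ¬ (c ∈ A ↔ d ∈ A)))
    (k₁ k₂ : ℕ) (h12 : k₁ ≤ k₂) (hk : 2 * k₂ ≤ n) : prop Q k₁ ≤ prop Q k₂ := by
  induction k₂, h12 using Nat.le_induction with
  | base => exact le_rfl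
  | succ k hk1 ih =>
    exact (ih (by omega)).trans (prop_step r hr U hU Q hQ k (by omega))

/-- one coordinate: for fixed other samples the success probability increases with the size -/
lemma prop_update {t : ℕ} (S : Fin t → Finset (Fin n)) (i : Fin t)
    [DecidablePred fun A => Sep (Function.update S i A)]
    (k₁ k₂ : ℕ) (h12 : k₁ ≤ k₂) (hk : 2 * k₂ ≤ n) :
    prop (fun A => Sep (Function.update S i A)) k₁ ≤
      prop (fun A => Sep (Function.update S i A)) k₂ := by
  classical
  apply prop_mono (fun c d => ∀ j, j ≠ i → (c ∈ S j ↔ d ∈ S j)) ?_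
    {c | ∀ j, j ≠ i → c ∉ S j} ?_ _ ?_ k₁ k₂ h12 hk
  · refine ⟨fun c j _ => Iff.rfl, fun h j hj => (h j hj).symm, fun h h' j hj =>
      (h j hj).trans (h' j hj)⟩
  · intro c d hc hcd
    simp only [mem_filter, mem_univ, true_and] at hc ⊢
    intro j hj
    rw [← hcd j hj]
    exact hc j hj
  · intro A
    unfold Sep
    have hup : ∀ c, (∃ j, c ∈ Function.update S i A j) ↔ (c ∈ A ∨ ∃ j, j ≠ i ∧ c ∈ S j) := by
      intro c
      constructor
      · rintro ⟨j, hj⟩
        by_cases hji : j = i
        · subst hji; rw [Function.update_self] at hj; exact Or.inl hj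
        · rw [Function.update_of_ne hji] at hj; exact Or.inr ⟨j, hji, hj⟩
      · rintro (h | ⟨j, hji, hj⟩)
        · exact ⟨i, by rw [Function.update_self]; exact h⟩
        · exact ⟨j, by rw [Function.update_of_ne hji]; exact hj⟩
    have hup2 : ∀ c d, (∃ j, ¬ (c ∈ Function.update S i A j ↔ d ∈ Function.update S i A j)) ↔
        (¬ (c ∈ A ↔ d ∈ A) ∨ ∃ j, j ≠ i ∧ ¬ (c ∈ S j ↔ d ∈ S j)) := by
      intro c d
      constructor
      · rintro ⟨j, hj⟩
        by_cases hji : j = i
        · subst hji; rw [Function.update_self] at hj; exact Or.inl hj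
        · rw [Function.update_of_ne hji] at hj; exact Or.inr ⟨j, hji, hj⟩
      · rintro (h | ⟨j, hji, hj⟩)
        · exact ⟨i, by rw [Function.update_self]; exact h⟩
        · exact ⟨j, by rw [Function.update_of_ne hji]; exact hj⟩
    simp only [hup, hup2]
    constructor
    · rintro ⟨h1, h2⟩
      refine ⟨fun c hc => ?_, fun c d hcd hr => ?_⟩
      · simp only [mem_filter, mem_univ, true_and] at hc
        rcases h1 c with h | ⟨j, hj, h⟩
        · exact h
        · exact absurd h (hc j hj)
      · rcases h2 c d hcd with h | ⟨j, hj, h⟩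
        · exact h
        · exact absurd (hr j hj) h
    · rintro ⟨h1, h2⟩
      refine ⟨fun c => ?_, fun c d hcd => ?_⟩
      · by_cases h : ∃ j, j ≠ i ∧ c ∈ S j
        · exact Or.inr h
        · push Not at h
          left
          apply h1
          simp only [mem_filter, mem_univ, true_and]
          exact h
      · by_cases h : ∃ j, j ≠ i ∧ ¬ (c ∈ S j ↔ d ∈ S j)
        · exact Or.inr h
        · left
          push Not at h
          apply h2 c d hcd
          intro j hj
          have := h j hj
          tauto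

/-- replacing the law of all coordinates, one after the other -/
lemma hybrid {X : Type} [Fintype X] (u v : X → ℝ) (hu : ∀ x, 0 ≤ u x) (hv : ∀ x, 0 ≤ v x) :
    ∀ (t : ℕ) (g : (Fin t → X) → ℝ),
      (∀ i S, ∑ A, u A * g (Function.update S i A) ≤ ∑ A, v A * g (Function.update S i A)) →
      ∑ S : Fin t → X, (∏ i, u (S i)) * g S ≤ ∑ S : Fin t → X, (∏ i, v (S i)) * g S := by
  intro t
  induction t with
  | zero => intro g _; simp
  | succ t ih =>
    intro g hg
    have key : ∀ w : X → ℝ, ∑ S : Fin (t + 1) → X, (∏ i, w (S i)) * g S =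
        ∑ A, w A * ∑ S : Fin t → X, (∏ i, w (S i)) * g (Fin.cons A S) := by
      intro w
      rw [← (Fin.consEquiv (fun _ : Fin (t + 1) => X)).sum_comp, Fintype.sum_prod_type]
      apply Finset.sum_congr rfl
      intro A _
      rw [Finset.mul_sum]
      apply Finset.sum_congr rfl
      intro S _
      have e0 : (Fin.consEquiv (fun _ : Fin (t + 1) => X)) (A, S) = Fin.cons A S := rfl
      rw [e0]
      simp only [Fin.prod_univ_succ, Fin.cons_zero, Fin.cons_succ]
      ring
    rw [key, key]
    calc ∑ A, u A * ∑ S : Fin t → X, (∏ i, u (S i)) * g (Fin.cons A S)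
        ≤ ∑ A, u A * ∑ S : Fin t → X, (∏ i, v (S i)) * g (Fin.cons A S) := by
          apply Finset.sum_le_sum
          intro A _
          apply mul_le_mul_of_nonneg_left _ (hu A)
          apply ih (fun S => g (Fin.cons A S))
          intro i S
          have := hg i.succ (Fin.cons A S)
          simpa only [← Fin.cons_update] using this
      _ = ∑ S : Fin t → X, (∏ i, v (S i)) * ∑ A, u A * g (Fin.cons A S) := by
          simp only [Finset.mul_sum]
          rw [Finset.sum_comm]
          apply Finset.sum_congr rfl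
          intro S _
          apply Finset.sum_congr rfl
          intro A _
          ring
      _ ≤ ∑ S : Fin t → X, (∏ i, v (S i)) * ∑ A, v A * g (Fin.cons A S) := by
          apply Finset.sum_le_sum
          intro S _
          apply mul_le_mul_of_nonneg_left _ (Finset.prod_nonneg fun i _ => hv _)
          by_cases hX : Nonempty X
          · obtain ⟨x⟩ := hX
            have := hg 0 (Fin.cons x S)
            simpa only [Fin.update_cons_zero] using this
          · have : IsEmpty X := not_nonempty_iff.1 hX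
            simp
      _ = ∑ A, v A * ∑ S : Fin t → X, (∏ i, v (S i)) * g (Fin.cons A S) := by
          simp only [Finset.mul_sum]
          rw [Finset.sum_comm]
          apply Finset.sum_congr rfl
          intro A _
          apply Finset.sum_congr rfl
          intro S _
          ring

lemma recovered_mono (σ : Fin n ≃ Fin n) (S : ℕ → Finset (Fin n)) {s t : ℕ} (hst : s ≤ t)
    (h : Recovered σ S s) : Recovered σ S t :=
  ⟨fun c => by obtain ⟨i, hi, hc⟩ := h.1 c; exact ⟨i, by omega, hc⟩,
    fun τ hτ => h.2 τ fun i hi => hτ i (by omega)⟩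

open Classical in
lemma recTime_eq (σ : Fin n ≃ Fin n) (S : ℕ → Finset (Fin n)) :
    recTime σ S = ∑' t : ℕ, (if Recovered σ S t then 0 else 1 : ℝ≥0∞) := by
  unfold recTime
  by_cases hex : ∃ t, Recovered σ S t
  · set m := Nat.find hex with hm
    have h1 : Recovered σ S m := Nat.find_spec hex
    have h2 : ∀ t, Recovered σ S t ↔ m ≤ t := fun t =>
      ⟨fun h => Nat.find_min' hex h, fun h => recovered_mono σ S h h1⟩
    have h3 : (∑' t : ℕ, (if Recovered σ S t then 0 else 1 : ℝ≥0∞)) = m := by
      rw [tsum_eq_sum (s := Finset.range m)]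
      · rw [Finset.sum_congr rfl (g := fun _ => 1)]
        · simp
        · intro t ht
          rw [if_neg]
          rw [h2]
          simpa using ht
      · intro t ht
        rw [if_pos]
        rw [h2]
        simpa using ht
    rw [h3]
    apply le_antisymm
    · exact iInf₂_le m h1
    · refine le_iInf₂ fun t ht => ?_
      exact_mod_cast (h2 t).1 ht
  · push Not at hex
    have h3 : (∑' t : ℕ, (if Recovered σ S t then 0 else 1 : ℝ≥0∞)) = ⊤ := by
      simp only [hex, if_false]
      exact ENNReal.tsum_const_eq_top_of_ne_zero one_ne_zero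
    rw [h3]
    simp [hex]

/-- The failure probability after `t` samples. -/
noncomputable def pbad (ν : Measure (Finset (Fin n))) (t : ℕ) : ℝ≥0∞ :=
  (Measure.pi fun _ : Fin t => ν) {S | ¬ Sep S}

lemma law_restrict (ν : Measure (Finset (Fin n))) [IsProbabilityMeasure ν] (t : ℕ) :
    (Measure.infinitePi fun _ : ℕ => ν).map (fun S (i : Fin t) => S i) =
      Measure.pi fun _ : Fin t => ν := by
  have h1 : iIndepFun (fun (i : ℕ) (S : ℕ → Finset (Fin n)) => S i)
      (Measure.infinitePi fun _ : ℕ => ν) :=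
    iIndepFun_infinitePi (P := fun _ : ℕ => ν) (X := fun _ A => A) (fun _ => measurable_id)
  have h2 := h1.precomp (g := fun i : Fin t => (i : ℕ)) Fin.val_injective
  have h3 := iIndepFun.map_fun_eq_pi_map
    (fun i : Fin t => (measurable_pi_apply (i : ℕ)).aemeasurable) h2
  rw [h3]
  congr 1
  funext i
  exact Measure.infinitePi_map_eval (fun _ : ℕ => ν) (i : ℕ)

lemma expRec_eq (σ : Fin n ≃ Fin n) (ν : Measure (Finset (Fin n))) [IsProbabilityMeasure ν] :
    expRec σ ν = ∑' t : ℕ, pbad ν t := by
  classical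
  unfold expRec
  simp only [recTime_eq]
  have hm : ∀ t, MeasurableSet {S : ℕ → Finset (Fin n) | Recovered σ S t} := by
    intro t
    have h1 : {S : ℕ → Finset (Fin n) | Recovered σ S t} =
        (fun (S : ℕ → Finset (Fin n)) (i : Fin t) => S i) ⁻¹' {S | Sep S} := by
      ext S
      simp only [Set.mem_ofPred_eq, Set.mem_preimage]
      exact recovered_iff σ S t
    rw [h1]
    exact (measurable_pi_lambda _ fun i => measurable_pi_apply _)
      (Set.toFinite _).measurableSet
  rw [lintegral_tsum]
  · congr 1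
    funext t
    have h2 : ∀ S : ℕ → Finset (Fin n), (if Recovered σ S t then 0 else 1 : ℝ≥0∞) =
        ({S : ℕ → Finset (Fin n) | Recovered σ S t}ᶜ).indicator (fun _ => 1) S := by
      intro S
      by_cases h : Recovered σ S t <;> simp [h]
    simp only [h2]
    rw [lintegral_indicator (hm t).compl, lintegral_const]
    simp only [one_mul, Measure.restrict_apply MeasurableSet.univ, Set.univ_inter]
    unfold pbad
    rw [← law_restrict ν t, Measure.map_apply (measurable_pi_lambda _ fun i => measurable_pi_apply _)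
      (Set.toFinite _).measurableSet]
    congr 1
    ext S
    simp only [Set.mem_compl_iff, Set.mem_ofPred_eq, Set.mem_preimage]
    rw [recovered_iff]
  · intro t
    apply Measurable.aemeasurable
    exact Measurable.ite (hm t) measurable_const measurable_const

open Classical in
lemma pbad_eq (ν : Measure (Finset (Fin n))) [IsProbabilityMeasure ν] (t : ℕ) :
    pbad ν t = ENNReal.ofReal
      (∑ S : Fin t → Finset (Fin n), (∏ i, ν.real {S i}) * (if Sep S then 0 else 1)) := by
  unfold pbad
  have h1 : {S : Fin t → Finset (Fin n) | ¬ Sep S} =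
      ((univ.filter fun S : Fin t → Finset (Fin n) => ¬ Sep S : Finset _) : Set _) := by
    ext S; simp
  rw [h1, ← sum_measure_singleton, ENNReal.ofReal_sum_of_nonneg]
  · rw [Finset.sum_filter]
    apply Finset.sum_congr rfl
    intro S _
    by_cases h : Sep S
    · simp [h]
    · simp only [h, not_false_eq_true, if_true, if_false, mul_one]
      rw [Measure.pi_singleton, ENNReal.ofReal_prod_of_nonneg (fun i _ => measureReal_nonneg)]
      apply Finset.prod_congr rfl
      intro i _
      rw [measureReal_def, ENNReal.ofReal_toReal (measure_ne_top _ _)]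
  · intro S _
    apply mul_nonneg (Finset.prod_nonneg fun i _ => measureReal_nonneg)
    split_ifs <;> norm_num

/-- comparison of two laws from one-coordinate comparison -/
lemma expRec_le (σ : Fin n ≃ Fin n) (ν ν' : Measure (Finset (Fin n))) [IsProbabilityMeasure ν]
    [IsProbabilityMeasure ν']
    (h : ∀ (t : ℕ) (i : Fin t) (S : Fin t → Finset (Fin n)),
      ν.real {A | Sep (Function.update S i A)} ≤ ν'.real {A | Sep (Function.update S i A)}) :
    expRec σ ν' ≤ expRec σ ν := by
  classical
  rw [expRec_eq, expRec_eq]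
  apply ENNReal.tsum_le_tsum
  intro t
  rw [pbad_eq, pbad_eq]
  apply ENNReal.ofReal_le_ofReal
  apply hybrid _ _ (fun _ => measureReal_nonneg) (fun _ => measureReal_nonneg) t
    (fun S => if Sep S then 0 else 1)
  intro i S
  have key : ∀ (ρ : Measure (Finset (Fin n))) [IsProbabilityMeasure ρ],
      ∑ A, ρ.real {A} * (if Sep (Function.update S i A) then (0 : ℝ) else 1) =
      1 - ρ.real {A | Sep (Function.update S i A)} := by
    intro ρ _
    have h1 : {A | Sep (Function.update S i A)} =
      ((univ.filter fun A : Finset (Fin n) => Sep (Function.update S i A) : Finset _) : Set _) := by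
      ext S; simp
    have h2 : ρ.real {A | Sep (Function.update S i A)} =
        ∑ A, ρ.real {A} * (if Sep (Function.update S i A) then (1 : ℝ) else 0) := by
      rw [h1, ← sum_measureReal_singleton, Finset.sum_filter]
      apply Finset.sum_congr rfl
      intro A _
      split_ifs <;> simp
    have h3 : ∑ A, ρ.real {A} = 1 := by
      have := sum_measureReal_singleton (μ := ρ) (univ : Finset (Finset (Fin n)))
      rw [this]
      simp
    rw [h2, ← h3, ← Finset.sum_sub_distrib]
    apply Finset.sum_congr rfl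
    intro A _
    split_ifs <;> simp
  rw [key, key]
  linarith [h t i S]

lemma card_eq_choose (n k : ℕ) : #{A : Finset (Fin n) | A.card = k} = n.choose k := by
  have : ({A : Finset (Fin n) | A.card = k} : Finset _) = Finset.powersetCard k univ := by
    ext A; simp [Finset.mem_powersetCard]
  rw [this, Finset.card_powersetCard]; simp

instance unif_prob (n k : ℕ) [h : Fact (k ≤ n)] : IsProbabilityMeasure (unif n k) := by
  apply isProbabilityMeasure_uniformOn' (Set.toFinite _)
  · have h1 : 0 < #{A : Finset (Fin n) | A.card = k} := by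
      rw [card_eq_choose]; exact Nat.choose_pos h.out
    obtain ⟨A, hA⟩ := Finset.card_pos.1 h1
    exact ⟨A, by simpa using hA⟩
  · exact (Set.toFinite _).measurableSet

lemma unif_real (n k : ℕ) (Q : Finset (Fin n) → Prop) [DecidablePred Q] :
    (unif n k).real {A | Q A} = prop Q k := by
  classical
  unfold unif prop
  have h1 : {A : Finset (Fin n) | A.card = k} =
      ((univ.filter fun A : Finset (Fin n) => A.card = k : Finset _) : Set _) := by
    ext S; simp
  have h2 : {A : Finset (Fin n) | Q A} =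
      ((univ.filter fun A : Finset (Fin n) => Q A : Finset _) : Set _) := by
    ext S; simp
  rw [measureReal_def, h1, h2, uniformOn_apply_finset, card_eq_choose, ENNReal.toReal_div,
    ENNReal.toReal_natCast, ENNReal.toReal_natCast, ← Finset.filter_and]

lemma mix_prob (n k₁ k₂ : ℕ) (p : ℝ) (hp0 : 0 ≤ p) (hp1 : p ≤ 1) [Fact (k₁ ≤ n)]
    [Fact (k₂ ≤ n)] : IsProbabilityMeasure (mix n k₁ k₂ p) := by
  refine ⟨?_⟩
  unfold mix
  simp only [Measure.coe_add, Measure.coe_smul, Pi.add_apply, Pi.smul_apply, measure_univ,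
    smul_eq_mul, mul_one]
  rw [← ENNReal.ofReal_add hp0 (by linarith)]
  simp

lemma mix_real (n k₁ k₂ : ℕ) (p : ℝ) (hp0 : 0 ≤ p) (hp1 : p ≤ 1) [Fact (k₁ ≤ n)]
    [Fact (k₂ ≤ n)] (s : Set (Finset (Fin n))) :
    (mix n k₁ k₂ p).real s = p * (unif n k₁).real s + (1 - p) * (unif n k₂).real s := by
  unfold mix
  rw [measureReal_def, Measure.coe_add, Measure.coe_smul, Measure.coe_smul, Pi.add_apply,
    Pi.smul_apply, Pi.smul_apply, smul_eq_mul, smul_eq_mul, ENNReal.toReal_add, ENNReal.toReal_mul,
    ENNReal.toReal_mul, ENNReal.toReal_ofReal hp0, ENNReal.toReal_ofReal (by linarith)]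
  · rfl
  · exact ENNReal.mul_ne_top ENNReal.ofReal_ne_top (measure_ne_top _ _)
  · exact ENNReal.mul_ne_top ENNReal.ofReal_ne_top (measure_ne_top _ _)

/-- **Q1 holds.** For all `1 ≤ k₁ < k₂ ≤ n / 2`, `p ∈ [0,1]` and every hidden bijection `σ`:
`E[T_{k₂}] ≤ E[T_K] ≤ E[T_{k₁}]`. -/
theorem result (n k₁ k₂ : ℕ) (_h1 : 1 ≤ k₁) (h12 : k₁ < k₂) (h2 : 2 * k₂ ≤ n) (p : ℝ)
    (hp0 : 0 ≤ p) (hp1 : p ≤ 1) (σ : Fin n ≃ Fin n) :
    expRec σ (unif n k₂) ≤ expRec σ (mix n k₁ k₂ p) ∧
      expRec σ (mix n k₁ k₂ p) ≤ expRec σ (unif n k₁) := by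
  classical
  haveI : Fact (k₁ ≤ n) := ⟨by omega⟩
  haveI : Fact (k₂ ≤ n) := ⟨by omega⟩
  haveI := mix_prob n k₁ k₂ p hp0 hp1
  constructor
  · apply expRec_le
    intro t i S
    rw [mix_real n k₁ k₂ p hp0 hp1, unif_real, unif_real]
    have := prop_update S i k₁ k₂ h12.le h2
    nlinarith
  · apply expRec_le
    intro t i S
    rw [mix_real n k₁ k₂ p hp0 hp1, unif_real, unif_real]
    have := prop_update S i k₁ k₂ h12.le h2
    nlinarith

end Pool.Agent.Results.MP_c9564b_pr.MoreIsFaster
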